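import Pool.Agent.R782.Bal.WtLnk

set_option autoImplicit false

/-!
# The flag complex inequality with Coxeter edge weights for coloured subdivisions, in all dimensions

Let `X` be a finite simplicial complex (flag or not) whose vertices are coloured by `k` colours, and let `a c` be
numbers such that each simplex all of whose vertices have the colour `c` has at most `2 a c` vertices. Let
`S = cs X col` be the colourwise barycentric subdivision of `X`: its vertices are the nonempty monochromatic simplices
of `X`, two of them are joined by an edge if their union is a simplex of `X` and, in the case that they have the same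
colour, one of them contains the other. It is a flag complex homeomorphic to `X` if the missing faces of `X` have at
most two colours. (One colour: `S` is the barycentric subdivision. If no triangle is monochromatic then the
monochromatic edges are subdivided by their midpoints and nothing else is changed, up to the flag condition.)

Suppose that `S` is a generalized homology `(2m-1)`-sphere (we use this for the coefficients `ℝ` and `ℤ/2`), and that
`∑ a c ≤ m + 1`. Note that `∑ a c ≥ m` always holds. For example, the vertices of the `(2m-1)`-sphere `X` are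
coloured by `m + 1` colours, there are no monochromatic triangles, and the monochromatic edges are subdivided.

Let `w e ≥ 2` be weights of the edges of `S` and `M σ` the orders of the finite Coxeter groups `W_σ`, or any numbers
with the properties `Orders`. Then

(1) `(-1)^m ω_M(S) ≥ (-1)^m χ(S) ≥ 0`, where `χ(S) = ∑ (-1/2)^|σ|`, if for every heavy face `T` (`|T| > 0` is even
and each vertex of `T` is in an edge of `T` of weight at least `3`) either `2 ∑ a c + (the number of the colours c
such that T has an odd number of vertices of the colour c) ≤ 2 m + 2`, or `T` has a subset `A` with an odd number of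
elements such that the edges between `A` and `T \ A` have weight `2`.

(2) In particular this holds for all weights which are equal to `2` on the edges which join vertices of
different colours.

(3) It also holds for all weights if `∑ a c + ⌊k/2⌋ ≤ m + 1`.

So the weighted inequality of the problem holds for these flag complexes in all dimensions.

Proof. `ω_M(S)` is the sum of the `(-1)^|T| b_M(T) χ(lk T)`, where `b_M(T)` vanishes for `T` nonempty and not heavy
and has the sign `(-1)^(|T|/2)` for heavy `T`. The link of `T` is a join of barycentric subdivisions of boundaries of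
simplices and a coloured subdivision; the part of it spanned by the simplices of odd relative size can be properly
coloured by `m - |T|/2 + 1` colours, and it is contained in a sphere of dimension `2 m - |T|`. The `ℓ²`-homology of
the right-angled Coxeter group of such a complex vanishes above the middle dimension (a van Kampen obstruction
argument for generic representations in characteristic two), and the other simplices have `ℓ²`-acyclic lower links.
-/

namespace Pool.Agent.Results.MP_375bfa_co.ColouredWeights

open Pool.Agent.W907.SG Pool.Agent.W907.SM Pool.Agent.TH652.Above Pool.Agent.R782.Bal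

variable {V : Type} [Fintype V] [LinearOrder V]

open Classical in
/-- `ω_M(S)`, the sum of the `(-1)^|T| / M T` over the cliques `T`. -/
noncomputable def omega (G : SimpleGraph V) (M : Finset V → ℚ) : ℚ :=
  ∑ T : Finset V, if G.IsClique (T : Set V) then (-1 : ℚ) ^ T.card / M T else 0

/-- Properties of the orders `M T` of the Coxeter groups `W_T` of the cliques with the weights `w`. -/
structure Orders (G : SimpleGraph V) (w : Finset V → ℕ) (M : Finset V → ℚ) : Prop where
  /-- the trivial group -/
  empty : M ∅ = 1
  /-- the group with two elements -/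
  vertex : ∀ v, M {v} = 2
  /-- dihedral groups -/
  edge : ∀ u v, G.Adj u v → 2 ≤ w {u, v} ∧ M {u, v} = 2 * w {u, v}
  /-- products -/
  mul : ∀ A B : Finset V, Disjoint A B → G.IsClique ((A ∪ B : Finset V) : Set V) →
    (∀ a ∈ A, ∀ b ∈ B, w {a, b} = 2) → M (A ∪ B) = M A * M B
  /-- the Charney–Davis inequality for the Coxeter complexes of the irreducible groups -/
  sign : ∀ T : Finset V, G.IsClique (T : Set V) → 3 ≤ T.card →
    (∀ A ⊆ T, A.Nonempty → A ≠ T → ∃ a ∈ A, ∃ b ∈ T, b ∉ A ∧ w {a, b} ≠ 2) →
    (Odd T.card → ∑ U ∈ T.powerset, (-1 / 2) ^ (T.card - U.card) / M U = 0) ∧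
    ∀ j, T.card = 2 * j → 0 ≤ (-1) ^ j * ∑ U ∈ T.powerset, (-1 / 2) ^ (T.card - U.card) / M U

/-- `T` is a nonempty heavy face: a clique with an even number of vertices, each of which is in an edge
inside `T` of weight different from `2`. -/
def Heavy (G : SimpleGraph V) (w : Finset V → ℕ) (T : Finset V) : Prop :=
  T.Nonempty ∧ G.IsClique (T : Set V) ∧ Even T.card ∧ ∀ a ∈ T, ∃ b ∈ T, b ≠ a ∧ w {a, b} ≠ 2

/-- The flag complex of `G` is isomorphic to a subcomplex of a simplicial complex `K` of dimension at most `2 m` which
is a homology sphere (and homology manifold) over the field with two elements. This holds if the flag complex of `G`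
itself is such a homology sphere, of dimension `2 m - 1`. -/
def Mod2 (m : ℕ) (G : SimpleGraph V) : Prop :=
  ∃ (N n : ℕ) (K : Finset (Finset (Fin N))) (f : V ↪ Fin N), n ≤ 2 * m + 1 ∧ Pool.Agent.Y131.KS.HSph K n ∧
    ∀ T : Finset V, G.IsClique (T : Set V) → T.map f ∈ K

/-- The number of the colours `c` such that `T` has an odd number of vertices of the colour `c` (`mc σ` is the colour
of the vertices of `σ`). -/
noncomputable def oddColours {N k : ℕ} {X : Finset (Finset (Fin N))} {col : Fin N → Fin k}
    (T : Finset (MF X col)) : ℕ :=
  ∑ c : Fin k, (T.filter (fun σ => mc σ = c)).card % 2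

/-- **The result.** -/
theorem result {N k : ℕ} (X : Finset (Finset (Fin N))) (hX : ∀ σ ∈ X, ∀ τ : Finset (Fin N), τ ⊆ σ → τ ∈ X)
    (col : Fin N → Fin k) (a : Fin k → ℕ)
    (ha : ∀ σ ∈ X, ∀ c, (∀ v ∈ σ, col v = c) → σ.card ≤ 2 * a c)
    [Fintype (MF X col)] [LinearOrder (MF X col)] (m : ℕ) (hm : ∑ c, a c ≤ m + 1)
    (hS : HSph (2 * m) (cs X col)) (hS2 : Mod2 m (cs X col))
    (w : Finset (MF X col) → ℕ) (M : Finset (MF X col) → ℚ) (hM : Orders (cs X col) w M) :
    0 ≤ (-1 : ℚ) ^ m * chiW (cs X col) ∧
    ((∀ T : Finset (MF X col), Heavy (cs X col) w T → 2 * ∑ c, a c + oddColours T ≤ 2 * m + 2 ∨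
        ∃ A ⊆ T, Odd A.card ∧ ∀ x ∈ A, ∀ y ∈ T, y ∉ A → w {x, y} = 2) →
      (-1) ^ m * chiW (cs X col) ≤ (-1) ^ m * omega (cs X col) M) ∧
    ((∀ x y, (cs X col).Adj x y → mc x ≠ mc y → w {x, y} = 2) →
      0 ≤ (-1) ^ m * omega (cs X col) M) ∧
    (∑ c, a c + k / 2 ≤ m + 1 → 0 ≤ (-1) ^ m * omega (cs X col) M) := by
  classical
  obtain ⟨N', n, K, f, hn, hK, hf⟩ := hS2
  have h0 := ra_cs hX a ha hS K f hn hK hf hm
  have h1 : (∀ T : Finset (MF X col), Heavy (cs X col) w T → 2 * ∑ c, a c + oddColours T ≤ 2 * m + 2 ∨
      ∃ A ⊆ T, Odd A.card ∧ ∀ x ∈ A, ∀ y ∈ T, y ∉ A → w {x, y} = 2) →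
      (-1) ^ m * chiW (cs X col) ≤ (-1) ^ m * omega (cs X col) M := fun hc =>
    weighted_cs hX a ha hS K f hn hK hf w M ⟨hM.empty, hM.vertex, hM.edge, hM.mul, hM.sign⟩ fun T h1 h2 h3 h4 => by
      rcases hc T ⟨h4, h1, h2, h3⟩ with h5 | h5
      · left
        refine le_trans (Nat.add_le_add_left (le_of_eq ?_) _) h5
        refine Finset.sum_congr rfl fun c _ => ?_
        rw [tcol]
      · exact Or.inr h5
  refine ⟨h0, h1, fun hw => h0.trans (h1 fun T hT => ?_), fun hk => h0.trans (h1 fun T hT => Or.inl ?_)⟩
  · -- monochromatic heavy edges
    by_cases hodd : ∃ c : Fin k, Odd (T.filter (fun σ => mc σ = c)).card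
    · right
      obtain ⟨c, hc⟩ := hodd
      refine ⟨T.filter (fun σ => mc σ = c), Finset.filter_subset _ _, hc, fun x hx y hy hyA => ?_⟩
      rw [Finset.mem_filter] at hx
      have hne : mc x ≠ mc y := fun e => hyA (Finset.mem_filter.mpr ⟨hy, by rw [← e, hx.2]⟩)
      exact hw x y (hT.2.1 hx.1 hy fun e => hne (by rw [e])) hne
    · left
      push Not at hodd
      have : oddColours T = 0 := by
        rw [oddColours]
        refine Finset.sum_eq_zero fun c _ => ?_
        have h2 := hodd c
        rw [Nat.not_odd_iff_even, Nat.even_iff] at h2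
        exact h2
      omega
  · -- few colours
    have h2 : oddColours T ≤ k := by
      rw [oddColours]
      refine (Finset.sum_le_sum fun c _ => (Nat.lt_succ_iff.mp (Nat.mod_lt _ (by norm_num : 0 < 2)) : _ ≤ 1)).trans ?_
      simp
    have h3 : oddColours T % 2 = 0 := by
      have h4 := sum_tcol T
      have h5 : (∑ c : Fin k, tcol T c) % 2 = (∑ c : Fin k, tcol T c % 2) % 2 := Finset.sum_nat_mod _ _ _
      have h6 : oddColours T = ∑ c : Fin k, tcol T c % 2 := by
        refine Finset.sum_congr rfl fun c _ => ?_
        rw [tcol]
      rw [h6, ← h5, h4]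
      exact Nat.even_iff.mp hT.2.2.1
    omega

end Pool.Agent.Results.MP_375bfa_co.ColouredWeights
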