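import Pool.Agent.R703.CW.Main

set_option autoImplicit false

/-!
# The flag complex inequality with Coxeter edge weights: weights only help

`G` is a finite graph whose flag complex `S` is a real homology manifold with the real homology of the
`(2 m - 1)`-sphere (`HSph (2 m) G`), `w e ≥ 2` are weights of the edges, and `N σ` are the orders of the
finite Coxeter groups `W_σ` of the simplices, or any numbers with the properties `Orders G w N`. Let
`ω_N(S) = ∑_σ (-1)^|σ| / N σ`, and let `χ(W G) = ∑_σ (-1/2)^|σ|` be the same sum for the weights `2`.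

A face is heavy if it has an even number of vertices and each of its vertices is in an edge of the face
which has weight at least `3`.

(1) Suppose that the links of the nonempty heavy faces which are of dimension at least three are in the
class `AR` or in the class `Cls`. Then `(-1)^m ω_N(S) ≥ (-1)^m χ(W G)`. So the weighted inequality
follows from the right-angled one for the same complex `S`; there is no condition on links for `m = 2`,
and for `m = 3` the condition is about the links of the edges of weight at least `3`, and it holds for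
them if `f₁ - 5 f₀ + 16 ≥ 0`, which is the theorem of Davis and Okun.
(2) If also `S` is in one of the classes, then `(-1)^m ω_N(S) ≥ 0`.
(3) If no two edges of weight at least `3` of a simplex have a common vertex, then `(-1)^m ω_N(S)` is a
nondecreasing function of the weights, again with the condition on the links of heavy faces.

The class `AR n` (with the starting class `AQ n`) is defined by operations which preserve the vanishing
of the `ℓ²`-homology of right-angled Coxeter groups above the middle; it contains, for example, the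
barycentric subdivisions of all triangulated `(n-1)`-spheres and, for even `n`, each complex with vertex
links in the class, and it is closed under joins, gluing and edge subdivisions. The class `Cls` (of flag
Eulerian complexes) is defined by operations which preserve the total monotonicity of gamma-vectors.

Proof. `ω_N(S)` is the sum of the `(-1)^|T| b_N(T) χ(W_{lk T})` over the faces, where
`b_N(T) = ∑_{U ⊆ T} (-1/2)^|T \ U| / N U` vanishes for the nonempty faces which are not heavy and has the
sign `(-1)^(|T|/2)` for the heavy ones; and `χ(W_{lk T})` has the sign `(-1)^(m - |T|/2)`.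
-/

namespace Pool.Agent.Results.MP_375bfa_co.HeavyFaces

open Pool.Agent.W907.SG Pool.Agent.W907.SM Pool.Agent.TH652.Above Pool.Agent.R781.VS

variable {V : Type} [Fintype V] [LinearOrder V]

open Classical in
/-- `ω_N(S)`, the sum of the `(-1)^|T| / N T` over the cliques `T`. -/
noncomputable def omega (G : SimpleGraph V) (N : Finset V → ℚ) : ℚ :=
  ∑ T : Finset V, if G.IsClique (T : Set V) then (-1 : ℚ) ^ T.card / N T else 0

/-- Properties of the orders `N T` of the Coxeter groups `W_T` of the cliques with the weights `w`. -/
structure Orders (G : SimpleGraph V) (w : Finset V → ℕ) (N : Finset V → ℚ) : Prop where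
  /-- the trivial group -/
  empty : N ∅ = 1
  /-- the group with two elements -/
  vertex : ∀ v, N {v} = 2
  /-- dihedral groups -/
  edge : ∀ u v, G.Adj u v → 2 ≤ w {u, v} ∧ N {u, v} = 2 * w {u, v}
  /-- products -/
  mul : ∀ A B : Finset V, Disjoint A B → G.IsClique ((A ∪ B : Finset V) : Set V) →
    (∀ a ∈ A, ∀ b ∈ B, w {a, b} = 2) → N (A ∪ B) = N A * N B
  /-- the Charney–Davis inequality for the Coxeter complexes of the irreducible groups -/
  sign : ∀ T : Finset V, G.IsClique (T : Set V) → 3 ≤ T.card →
    (∀ A ⊆ T, A.Nonempty → A ≠ T → ∃ a ∈ A, ∃ b ∈ T, b ∉ A ∧ w {a, b} ≠ 2) →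
    (Odd T.card → ∑ U ∈ T.powerset, (-1 / 2) ^ (T.card - U.card) / N U = 0) ∧
    ∀ j, T.card = 2 * j → 0 ≤ (-1) ^ j * ∑ U ∈ T.powerset, (-1 / 2) ^ (T.card - U.card) / N U

/-- `T` is a nonempty heavy face: a clique with an even number of vertices, each of which is in an edge
inside `T` of weight different from `2`. -/
def Heavy (G : SimpleGraph V) (w : Finset V → ℕ) (T : Finset V) : Prop :=
  T.Nonempty ∧ G.IsClique (T : Set V) ∧ Even T.card ∧ ∀ a ∈ T, ∃ b ∈ T, b ≠ a ∧ w {a, b} ≠ 2

/-- The link of the face `T` of the complex of `G`, of dimension `n - |T| - 1`, is in one of the two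
classes. -/
def GoodLink (G : SimpleGraph V) (n : ℕ) (T : Finset V) : Prop :=
  AR (n - T.card) (G.induce (lk G T)) ∨
    Pool.Agent.TH709.GG.Cls (n - T.card) V G (Pool.Agent.W497.FS.lkF G Finset.univ T)

/-- The order `2^|σ| ∏ (w e / 2)` of the Coxeter group of `σ`, if the edges `e` in `σ` with `w e > 2` are
pairwise disjoint. -/
def dihedralOrder (w : Finset V → ℕ) (σ : Finset V) : ℚ :=
  2 ^ σ.card * ∏ e ∈ σ.powersetCard 2, (w e : ℚ) / 2

/-- **The result.** -/
theorem result (G : SimpleGraph V) (m : ℕ) (hS : HSph (2 * m) G) :
    (∀ (w : Finset V → ℕ) (N : Finset V → ℚ), Orders G w N →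
      (∀ T : Finset V, Heavy G w T → T.card + 4 ≤ 2 * m → GoodLink G (2 * m) T) →
      (-1) ^ m * chiW G ≤ (-1) ^ m * omega G N ∧
      ((AR (2 * m) G ∨ Pool.Agent.TH709.GG.Cls (2 * m) V G Finset.univ) →
        0 ≤ (-1) ^ m * omega G N)) ∧
    (∀ w w' : Finset V → ℕ, (∀ e, 2 ≤ w e) → (∀ e, w e ≤ w' e) →
      (∀ u v z, G.Adj u v → G.Adj u z → G.Adj v z → w' {u, v} = 2 ∨ w' {u, z} = 2) →
      (∀ T : Finset V, Heavy G w' T → T.card + 4 ≤ 2 * m → GoodLink G (2 * m) T) →
      (-1) ^ m * omega G (dihedralOrder w) ≤ (-1) ^ m * omega G (dihedralOrder w')) := by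
  refine ⟨fun w N hN hL => ?_, fun w w' hw hww hmat hL => ?_⟩
  · have h1 := Pool.Agent.R703.CW.weighted_ge hS w N
      ⟨hN.empty, hN.vertex, hN.edge, hN.mul, hN.sign⟩
      (fun T h1 h2 h3 h4 h5 => hL T ⟨h4, h1, h2, h3⟩ h5)
    exact ⟨h1, fun h => (Pool.Agent.R703.CW.chi_nonneg hS h).trans h1⟩
  · exact Pool.Agent.R703.CW.weighted_mono hS w w' hw hww hmat
      (fun T h1 h2 h3 h4 h5 => hL T ⟨h4, h1, h2, h3⟩ h5)

end Pool.Agent.Results.MP_375bfa_co.HeavyFaces
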